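import Pool.Agent.H63.WT.TC

/-!
# Row LNE: the line trick, no common zero over quadratic extensions
-/

set_option autoImplicit false

open Polynomial Matrix Pool.Agent.H63.WT

namespace Pool.Agent.H73.WT

/-- the functional as a linear map -/
noncomputable def lm {F : Type} [Field F] (P : F[X]) : F[X] →ₗ[F] F :=
  (lcoeff F (P.natDegree - 1)).comp (modByMonicHom P)

lemma lm_apply {F : Type} [Field F] (P g : F[X]) : lm P g = Pool.Agent.H34.N6.lam P g := rfl

lemma lm_C {F : Type} [Field F] (P g : F[X]) (c : F) : lm P (C c * g) = c * lm P g := by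
  rw [← smul_eq_C_mul, map_smul, smul_eq_mul]

/-- the polynomial of a vector -/
noncomputable def pv {F : Type} [Field F] {n : ℕ} (u : Fin n → F) : F[X] :=
  ∑ i, C (u i) * X ^ (i : ℕ)

lemma dot_eq {F : Type} [Field F] (A h : F[X]) (u v : Fin A.natDegree → F) :
    u ⬝ᵥ (gm A h *ᵥ v) = lm A (h * pv u * pv v) := by
  have e1 : h * pv u * pv v = ∑ i, ∑ j, C (u i * v j) * (h * X ^ ((i : ℕ) + (j : ℕ))) := by
    unfold pv
    rw [mul_assoc, Finset.sum_mul_sum, Finset.mul_sum]
    refine Finset.sum_congr rfl fun i _ => ?_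
    rw [Finset.mul_sum]
    refine Finset.sum_congr rfl fun j _ => ?_
    rw [C_mul, pow_add]
    ring
  rw [e1, map_sum]
  unfold dotProduct mulVec dotProduct
  refine Finset.sum_congr rfl fun i _ => ?_
  rw [map_sum, Finset.mul_sum]
  refine Finset.sum_congr rfl fun j _ => ?_
  rw [lm_C, lm_apply]
  unfold gm
  ring

lemma plane_sq (hGDT : T_GDT) (hMDS : T_MDS) {F : Type} [Field F] (h2 : (2 : F) ≠ 0) (A h : F[X])
    (hA : A.Monic) (h4 : A.natDegree = 4) (b : Fin 2 → Fin A.natDegree → F)
    (hb : LinearIndependent F b) (hi : ∀ i j, b i ⬝ᵥ (gm A h *ᵥ b j) = 0) :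
    IsSquare (nn A h) := by
  obtain ⟨g1, g2, -⟩ := hGDT F A hA
  have hn : nn A h = (gm A h).det := by
    unfold nn
    have e : (-1 : F) ^ (A.natDegree * (A.natDegree - 1) / 2) = 1 := by rw [h4]; norm_num
    rw [g1, e, mul_one]
  rw [hn]
  by_cases h0 : (gm A h).det = 0
  · rw [h0]; exact ⟨0, by ring⟩
  · have := hMDS F h2 (Fin A.natDegree) (gm A h) 2 ⟨g2 h, h0⟩
      ⟨2, by rw [Fintype.card_fin, h4], b, hb, hi⟩ (by rw [Fintype.card_fin, h4])
    rwa [neg_one_sq, one_mul] at this

lemma no_sq (hGDT : T_GDT) (hNNR : T_NNR) {F : Type} [Field F] (m : F) (M0 Q : F[X])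
    (hm0 : m ≠ 0) (hM : M0.Monic) (h4 : M0.natDegree = 4) (hc : IsCoprime M0 Q)
    (hs : IsSquare (m * nn M0 Q)) (hm : ¬ IsSquare m) (ht : ∀ t : F, ¬ IsSquare (m * eval t M0))
    (a b : F) (hab : a ≠ 0 ∨ b ≠ 0) (hsq : IsSquare (nn M0 (Q * (C a * X + C b)))) : False := by
  obtain ⟨g1, g2, g3, g4, g5, -, -⟩ := hGDT F M0 hM
  have hQ0 : nn M0 Q ≠ 0 := by
    unfold nn
    refine mul_ne_zero ((g3 Q).2 hc) ?_
    rw [g1]
    exact pow_ne_zero _ (by norm_num)
  have key : ∀ c : F, c ≠ 0 → ∀ e : F, IsSquare (nn M0 Q * (c ^ 4 * e)) → IsSquare (m * e) := by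
    intro c hc0 e he
    obtain ⟨x, hx⟩ := hs
    obtain ⟨y, hy⟩ := he
    refine ⟨x * y / (nn M0 Q * c ^ 2), ?_⟩
    have h1 : m * e = (m * nn M0 Q) * (nn M0 Q * (c ^ 4 * e)) / (nn M0 Q * c ^ 2) ^ 2 := by
      field_simp
    rw [h1, hx, hy]
    ring
  rw [g4] at hsq
  by_cases ha : a = 0
  · have hb : b ≠ 0 := by
      rcases hab with h | h
      · exact absurd ha h
      · exact h
    rw [ha, C_0, zero_mul, zero_add, g5, h4] at hsq
    apply hm
    have := key b hb 1 (by rwa [mul_one])
    rwa [mul_one] at this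
  · have e1 : C a * X + C b = C a * (X - C (-b / a)) := by
      rw [mul_sub, ← C_mul]
      have : a * (-b / a) = -b := by field_simp
      rw [this, C_neg]
      ring
    rw [e1, g4, g5, h4] at hsq
    have e2 : nn M0 (X - C (-b / a)) = eval (-b / a) M0 := by
      rw [(hNNR F M0 (X - C (-b / a)) hM (monic_X_sub_C _)).2, natDegree_X_sub_C, h4]
      rw [(hGDT F (X - C (-b / a)) (monic_X_sub_C _)).2.2.2.2.2.2 (-b / a) rfl M0]
      norm_num
    rw [e2] at hsq
    exact ht _ (key a ha _ hsq)

lemma choose_ab {F : Type} [Field F] (s t : F) : ∃ a b : F, (a ≠ 0 ∨ b ≠ 0) ∧ a * s + b * t = 0 := by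
  by_cases hs : s = 0
  · exact ⟨1, 0, Or.inl one_ne_zero, by rw [hs]; ring⟩
  · exact ⟨t, -s, Or.inr (neg_ne_zero.2 hs), by ring⟩

lemma quad {F E : Type} [Field F] [Field E] [Algebra F E] (h2 : (2 : F) ≠ 0)
    (hE : Module.finrank F E = 2) : ∃ (w : E) (d : F), d ≠ 0 ∧ w * w = algebraMap F E d ∧
      (∀ e : E, ∃ x y : F, e = algebraMap F E x + algebraMap F E y * w) ∧
      ∀ x y : F, algebraMap F E x + algebraMap F E y * w = 0 → x = 0 ∧ y = 0 := by
  obtain ⟨u, hu⟩ : ∃ u : E, ∀ x : F, algebraMap F E x ≠ u := by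
    by_contra hc
    push Not at hc
    have hb : Function.Bijective (Algebra.linearMap F E) :=
      ⟨(algebraMap F E).injective, fun e => hc e⟩
    have := (LinearEquiv.ofBijective (Algebra.linearMap F E) hb).finrank_eq
    rw [Module.finrank_self, hE] at this
    omega
  have hli : LinearIndependent F ![(1 : E), u] := by
    rw [LinearIndependent.pair_iff]
    intro s t hst
    have ht : t = 0 := by
      by_contra ht
      apply hu (-s / t)
      rw [Algebra.smul_def, Algebra.smul_def, mul_one] at hst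
      have ht' : algebraMap F E t ≠ 0 := by rwa [Ne, map_eq_zero]
      rw [map_div₀, map_neg, div_eq_iff ht']
      linear_combination -hst
    rw [ht, zero_smul, add_zero, Algebra.smul_def, mul_one, map_eq_zero] at hst
    exact ⟨hst, ht⟩
  have hspan := hli.span_eq_top_of_card_eq_finrank (by rw [Fintype.card_fin, hE])
  have hrep : ∀ e : E, ∃ x y : F, e = algebraMap F E x + algebraMap F E y * u := by
    intro e
    have he : e ∈ Submodule.span F (Set.range ![(1 : E), u]) := by
      rw [hspan]; exact Submodule.mem_top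
    rw [Matrix.range_cons, Matrix.range_cons, Matrix.range_empty, Set.union_empty,
      Set.singleton_union, Submodule.mem_span_pair] at he
    obtain ⟨x, y, hxy⟩ := he
    refine ⟨x, y, ?_⟩
    rw [← hxy, Algebra.smul_def, Algebra.smul_def, mul_one]
  obtain ⟨a, b, hab⟩ := hrep (u * u)
  have h2E : (2 : E) ≠ 0 := by
    have : algebraMap F E 2 ≠ 0 := by rwa [Ne, map_eq_zero]
    rwa [map_ofNat] at this
  obtain ⟨w, hw⟩ : ∃ w, w = u - algebraMap F E (b / 2) := ⟨_, rfl⟩
  have hww : w * w = algebraMap F E (a + b ^ 2 / 4) := by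
    rw [hw, map_add, map_div₀, map_div₀, map_pow, map_ofNat, map_ofNat]
    have h4 : (4 : E) = 2 * 2 := by norm_num
    rw [h4]
    field_simp
    linear_combination 4 * hab
  have hw0 : ∀ x y : F, algebraMap F E x + algebraMap F E y * w = 0 → x = 0 ∧ y = 0 := by
    intro x y hxy
    have hy : y = 0 := by
      by_contra hy
      have hy' : algebraMap F E y ≠ 0 := by rwa [Ne, map_eq_zero]
      apply hu (-x / y + b / 2)
      rw [map_add, map_div₀ (algebraMap F E) (-x) y, map_neg]
      have : w = -algebraMap F E x / algebraMap F E y := by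
        rw [eq_div_iff hy']
        linear_combination hxy
      rw [← this, hw]
      ring
    rw [hy, map_zero, zero_mul, add_zero, map_eq_zero] at hxy
    exact ⟨hxy, hy⟩
  refine ⟨w, a + b ^ 2 / 4, ?_, hww, ?_, hw0⟩
  · intro h0
    rw [h0, map_zero] at hww
    have hw1 : w = 0 := mul_self_eq_zero.1 hww
    have := (hw0 0 1 (by rw [map_zero, map_one, one_mul, zero_add, hw1])).2
    exact one_ne_zero this
  · intro e
    obtain ⟨x, y, hxy⟩ := hrep e
    refine ⟨x + y * (b / 2), y, ?_⟩
    rw [hxy, hw, map_add, map_mul]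
    ring

/-- the polynomial of a vector, as a linear map -/
noncomputable def pvl (F : Type) [Field F] (n : ℕ) : (Fin n → F) →ₗ[F] F[X] where
  toFun := pv
  map_add' u v := by
    unfold pv
    rw [← Finset.sum_add_distrib]
    refine Finset.sum_congr rfl fun i _ => ?_
    rw [Pi.add_apply, C_add, add_mul]
  map_smul' c u := by
    unfold pv
    rw [RingHom.id_apply, Finset.smul_sum]
    refine Finset.sum_congr rfl fun i _ => ?_
    rw [Pi.smul_apply, smul_eq_mul, C_mul, smul_eq_C_mul, mul_assoc]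

lemma pvl_apply {F : Type} [Field F] {n : ℕ} (u : Fin n → F) : pvl F n u = pv u := rfl

lemma pv_coeff {F : Type} [Field F] {n : ℕ} (u : Fin n → F) (k : ℕ) :
    (pv u).coeff k = if h : k < n then u ⟨k, h⟩ else 0 := by
  unfold pv
  rw [finsetSum_coeff]
  simp only [coeff_C_mul_X_pow]
  split_ifs with h
  · rw [Finset.sum_eq_single ⟨k, h⟩]
    · rw [if_pos rfl]
    · intro i _ hi
      rw [if_neg]
      intro hk
      exact hi (Fin.ext hk.symm)
    · intro h'
      exact absurd (Finset.mem_univ _) h'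
  · refine Finset.sum_eq_zero fun i _ => ?_
    rw [if_neg]
    intro hk
    exact h (hk ▸ i.2)

lemma lm_map {F E : Type} [Field F] [Field E] [Algebra F E] (P g : F[X]) (hP : P.Monic) :
    lm (P.map (algebraMap F E)) (g.map (algebraMap F E)) = algebraMap F E (lm P g) := by
  rw [lm_apply, lm_apply]
  unfold Pool.Agent.H34.N6.lam
  rw [← map_modByMonic _ hP, coeff_map, natDegree_map]

lemma exists_ker {F : Type} [Field F] {n : ℕ} (hn : n = 4)
    (L : (Fin n → F) →ₗ[F] (Fin 2 → F)) (v : Fin n → F) :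
    ∃ v', L v' = 0 ∧ v' ∉ Submodule.span F {v} := by
  subst hn
  by_contra hno
  push Not at hno
  have hle : LinearMap.ker L ≤ Submodule.span F {v} := fun v' hv' =>
    hno v' (LinearMap.mem_ker.1 hv')
  have h1 := Submodule.finrank_mono hle
  have h3 : Module.finrank F (Submodule.span F {v}) ≤ 1 := by
    by_cases hv : v = 0
    · rw [hv, Submodule.span_zero_singleton, finrank_bot]; omega
    · rw [finrank_span_singleton hv]
  have h5 := LinearMap.finrank_range_add_finrank_ker L
  have h6 : Module.finrank F (LinearMap.range L) ≤ Module.finrank F (Fin 2 → F) :=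
    Submodule.finrank_le (LinearMap.range L)
  have h7 : Module.finrank F (Fin 2 → F) = 2 := Module.finrank_fin_fun F
  have h8 : Module.finrank F (Fin 4 → F) = 4 := Module.finrank_fin_fun F
  omega

lemma exists_L {F : Type} [Field F] {n : ℕ} (M0 Q : F[X]) (v : Fin n → F) :
    ∃ L : (Fin n → F) →ₗ[F] (Fin 2 → F), ∀ (v' : Fin n → F) (j : Fin 2),
        L v' j = lm M0 (Q * X ^ (j : ℕ) * pv v * pv v') := by
  refine ⟨{ toFun := fun v' j => lm M0 (Q * X ^ (j : ℕ) * pv v * pv v')
            map_add' := ?_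
            map_smul' := ?_ }, fun v' j => rfl⟩
  · intro a b
    funext j
    rw [Pi.add_apply, ← map_add, ← mul_add]
    rw [← pvl_apply (a + b), map_add, pvl_apply, pvl_apply]
  · intro c a
    funext j
    rw [Pi.smul_apply, RingHom.id_apply, ← map_smul, ← pvl_apply (c • a), map_smul, pvl_apply,
      mul_smul_comm]

lemma finish (hGDT : T_GDT) (hMDS : T_MDS) (hNNR : T_NNR) {F : Type} [Field F]
    (h2 : (2 : F) ≠ 0) (m : F) (M0 Q : F[X])
    (hm0 : m ≠ 0) (hM : M0.Monic) (h4 : M0.natDegree = 4) (hc : IsCoprime M0 Q)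
    (hs : IsSquare (m * nn M0 Q)) (hm : ¬ IsSquare m) (ht : ∀ t : F, ¬ IsSquare (m * eval t M0))
    (u v : Fin M0.natDegree → F) (hli : LinearIndependent F ![u, v]) (e : F)
    (huu : ∀ j : ℕ, j < 2 → lm M0 (Q * X ^ j * pv u * pv u) =
      e * lm M0 (Q * X ^ j * pv v * pv v))
    (huv : ∀ j : ℕ, j < 2 → lm M0 (Q * X ^ j * pv u * pv v) = 0) : False := by
  obtain ⟨a, b, hab, h0⟩ := choose_ab (lm M0 (Q * X ^ 1 * pv v * pv v))
    (lm M0 (Q * X ^ 0 * pv v * pv v))
  have key : ∀ x y : Fin M0.natDegree → F, x ⬝ᵥ (gm M0 (Q * (C a * X + C b)) *ᵥ y) =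
      a * lm M0 (Q * X ^ 1 * pv x * pv y) + b * lm M0 (Q * X ^ 0 * pv x * pv y) := by
    intro x y
    rw [dot_eq, ← lm_C, ← lm_C, ← map_add]
    congr 1
    ring
  refine no_sq hGDT hNNR m M0 Q hm0 hM h4 hc hs hm ht a b hab
    (plane_sq hGDT hMDS h2 M0 _ hM h4 ![u, v] hli ?_)
  have k1 : v ⬝ᵥ (gm M0 (Q * (C a * X + C b)) *ᵥ v) = 0 := by rw [key]; exact h0
  have k2 : u ⬝ᵥ (gm M0 (Q * (C a * X + C b)) *ᵥ u) = 0 := by
    rw [key, huu 1 (by norm_num), huu 0 (by norm_num)]
    linear_combination e * h0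
  have k3 : u ⬝ᵥ (gm M0 (Q * (C a * X + C b)) *ᵥ v) = 0 := by
    rw [key, huv 1 (by norm_num), huv 0 (by norm_num)]
    ring
  have k4 : v ⬝ᵥ (gm M0 (Q * (C a * X + C b)) *ᵥ u) = 0 := by
    rw [key]
    rw [show Q * X ^ 1 * pv v * pv u = Q * X ^ 1 * pv u * pv v by ring,
      show Q * X ^ 0 * pv v * pv u = Q * X ^ 0 * pv u * pv v by ring,
      huv 1 (by norm_num), huv 0 (by norm_num)]
    ring
  intro i j
  fin_cases i <;> fin_cases j
  · exact k2
  · exact k3
  · exact k4
  · exact k1

theorem pf_LNE (hGDT : T_GDT) (hMDS : T_MDS) (hNNR : T_NNR) : T_LNE := by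
  intro F E _ _ _ h2 hE m M0 Q hm0 hM hsep h4 hc hs hm ht z hz hz0 hz1
  obtain ⟨w, d, hd, hww, hrep, huniq⟩ := quad h2 hE
  by_contra hzne
  choose c1 c2 hcc using hrep
  obtain ⟨u1, hu1⟩ : ∃ u1 : Fin M0.natDegree → F, u1 = fun i : Fin M0.natDegree => c1 (z.coeff (i : ℕ)) :=
    ⟨_, rfl⟩
  obtain ⟨u2, hu2⟩ : ∃ u2 : Fin M0.natDegree → F, u2 = fun i : Fin M0.natDegree => c2 (z.coeff (i : ℕ)) :=
    ⟨_, rfl⟩
  have hzsum : z = (pv u1).map (algebraMap F E) + C w * (pv u2).map (algebraMap F E) := by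
    ext k
    rw [coeff_add, coeff_C_mul, coeff_map, coeff_map, pv_coeff, pv_coeff]
    by_cases hk : k < M0.natDegree
    · rw [dif_pos hk, dif_pos hk, hu1, hu2]
      rw [hcc (z.coeff k)]
      ring
    · rw [dif_neg hk, dif_neg hk, map_zero, mul_zero, add_zero]
      exact coeff_eq_zero_of_natDegree_lt (by omega)
  have hE0 : ∀ j : ℕ, j < 2 → lm (M0.map (algebraMap F E))
      (Q.map (algebraMap F E) * z ^ 2 * X ^ j) = 0 := by
    intro j hj
    interval_cases j
    · rw [pow_zero, mul_one]; exact hz0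
    · rw [pow_one]; exact hz1
  have hsplit : ∀ j : ℕ, j < 2 →
      lm M0 (Q * X ^ j * pv u1 * pv u1) + d * lm M0 (Q * X ^ j * pv u2 * pv u2) = 0 ∧
      lm M0 (Q * X ^ j * pv u1 * pv u2) = 0 := by
    intro j hj
    have h := hE0 j hj
    have hdec : Q.map (algebraMap F E) * z ^ 2 * X ^ j =
        (Q * X ^ j * pv u1 * pv u1 + C d * (Q * X ^ j * pv u2 * pv u2)).map (algebraMap F E) +
        C w * (C 2 * (Q * X ^ j * pv u1 * pv u2)).map (algebraMap F E) := by
      have hCd : C (algebraMap F E d) = C w * C w := by rw [← hww, C_mul]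
      conv_lhs => rw [hzsum]
      simp only [Polynomial.map_add, Polynomial.map_mul, Polynomial.map_pow, map_X, map_C, hCd]
      rw [map_ofNat, map_ofNat C]
      ring
    rw [hdec, map_add, lm_C, lm_map _ _ hM, lm_map _ _ hM, map_add, lm_C, lm_C, mul_comm w] at h
    obtain ⟨a1, a2⟩ := huniq _ _ h
    refine ⟨a1, ?_⟩
    rcases mul_eq_zero.1 a2 with h | h
    · exact absurd h h2
    · exact h
  by_cases hli : LinearIndependent F ![u1, u2]
  · refine finish hGDT hMDS hNNR h2 m M0 Q hm0 hM h4 hc hs hm ht u1 u2 hli (-d) ?_ ?_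
    · intro j hj
      linear_combination (hsplit j hj).1
    · intro j hj
      exact (hsplit j hj).2
  · -- dependent
    obtain ⟨v, x, y, hxy, hv0, e1, e2⟩ : ∃ (v : Fin M0.natDegree → F) (x y : F),
        (x ≠ 0 ∨ y ≠ 0) ∧ v ≠ 0 ∧ u1 = x • v ∧ u2 = y • v := by
      rw [LinearIndependent.pair_iff] at hli
      push Not at hli
      obtain ⟨s, t, hst, hne⟩ := hli
      have hnz : ¬ (u1 = 0 ∧ u2 = 0) := by
        rintro ⟨h1, h2⟩
        apply hzne
        rw [hzsum, h1, h2]
        have : pv (0 : Fin M0.natDegree → F) = 0 := by rw [← pvl_apply, map_zero]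
        rw [this, Polynomial.map_zero, mul_zero, add_zero]
      by_cases hs0 : s = 0
      · have ht0 := hne hs0
        rw [hs0, zero_smul, zero_add, smul_eq_zero] at hst
        have hu20 : u2 = 0 := by
          rcases hst with h | h
          · exact absurd h ht0
          · exact h
        exact ⟨u1, 1, 0, Or.inl one_ne_zero, fun h => hnz ⟨h, hu20⟩, (one_smul _ _).symm,
          by rw [hu20, zero_smul]⟩
      · have hu12 : u1 = (-t / s) • u2 := by
          have : s • u1 = -(t • u2) := eq_neg_of_add_eq_zero_left hst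
          rw [div_eq_inv_mul, mul_smul, neg_smul, ← this, smul_smul, inv_mul_cancel₀ hs0,
            one_smul]
        refine ⟨u2, -t / s, 1, Or.inr one_ne_zero, fun h => hnz ⟨?_, h⟩, hu12,
          (one_smul _ _).symm⟩
        rw [hu12, h, smul_zero]
    have hpv : ∀ (c : F) (v : Fin M0.natDegree → F), pv (c • v) = C c * pv v := by
      intro c v
      rw [← pvl_apply, map_smul, pvl_apply, smul_eq_C_mul]
    have hvv : ∀ j : ℕ, j < 2 → lm M0 (Q * X ^ j * pv v * pv v) = 0 := by
      intro j hj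
      obtain ⟨f1, f2⟩ := hsplit j hj
      rw [e1, e2, hpv, hpv] at f1 f2
      rw [show Q * X ^ j * (C x * pv v) * (C x * pv v) = C (x * x) * (Q * X ^ j * pv v * pv v) by
        rw [C_mul]; ring, show Q * X ^ j * (C y * pv v) * (C y * pv v) =
        C (y * y) * (Q * X ^ j * pv v * pv v) by rw [C_mul]; ring, lm_C, lm_C] at f1
      rw [show Q * X ^ j * (C x * pv v) * (C y * pv v) = C (x * y) * (Q * X ^ j * pv v * pv v) by
        rw [C_mul]; ring, lm_C] at f2
      rcases mul_eq_zero.1 f2 with h | h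
      · rcases mul_eq_zero.1 h with h | h
        · have hy : y ≠ 0 := by
            rcases hxy with h' | h'
            · exact absurd h h'
            · exact h'
          rw [h, zero_mul, zero_mul, zero_add] at f1
          have hdy : d * (y * y) ≠ 0 := mul_ne_zero hd (mul_ne_zero hy hy)
          rw [← mul_assoc] at f1
          rcases mul_eq_zero.1 f1 with h' | h'
          · exact absurd h' hdy
          · exact h'
        · have hx : x ≠ 0 := by
            rcases hxy with h' | h'
            · exact h'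
            · exact absurd h h'
          rw [h, zero_mul, zero_mul, mul_zero, add_zero] at f1
          rcases mul_eq_zero.1 f1 with h' | h'
          · exact absurd h' (mul_ne_zero hx hx)
          · exact h'
      · exact h
    obtain ⟨L, hL⟩ := exists_L M0 Q v
    obtain ⟨v', hv', hnot⟩ := exists_ker h4 L v
    have hli' : LinearIndependent F ![v', v] := by
      rw [LinearIndependent.pair_iff]
      intro s t hst
      have hs0 : s = 0 := by
        by_contra hs0
        apply hnot
        rw [Submodule.mem_span_singleton]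
        refine ⟨-t / s, ?_⟩
        have : s • v' = -(t • v) := eq_neg_of_add_eq_zero_left hst
        rw [div_eq_inv_mul, mul_smul, neg_smul, ← this, smul_smul, inv_mul_cancel₀ hs0,
          one_smul]
      rw [hs0, zero_smul, zero_add, smul_eq_zero] at hst
      refine ⟨hs0, ?_⟩
      rcases hst with h | h
      · exact h
      · exact absurd h hv0
    have hli'' : LinearIndependent F ![v, v'] := by
      rw [LinearIndependent.pair_iff] at hli' ⊢
      intro s t hst
      have := hli' t s (by rw [add_comm]; exact hst)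
      exact ⟨this.2, this.1⟩
    refine finish hGDT hMDS hNNR h2 m M0 Q hm0 hM h4 hc hs hm ht v v' hli'' 0 ?_ ?_
    · intro j hj
      rw [hvv j hj, zero_mul]
    · intro j hj
      have := congrFun hv' ⟨j, hj⟩
      rw [hL] at this
      exact this

end Pool.Agent.H73.WT
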